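import Mathlib
import Pool.Agent.P.MP_6deb90_an.Hermite

/-!
Newton estimates of every order for the logarithmic derivatives of a polynomial far from its
roots, and the resulting estimate for products of shifted Hermite operators.
-/

namespace Pool.Agent.P.MP_6deb90_an
open Polynomial

/-- The generating series of the quotients of the derivatives by the polynomial. -/
noncomputable def gen (s : Multiset ℂ) (z : ℂ) : PowerSeries ℂ :=
  (s.map fun r => 1 + PowerSeries.C (z - r)⁻¹ * PowerSeries.X).prod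

lemma gen_cons (r : ℂ) (s : Multiset ℂ) (z : ℂ) :
    gen (r ::ₘ s) z = (1 + PowerSeries.C (z - r)⁻¹ * PowerSeries.X) * gen s z := by
  simp [gen]

lemma coeff_gen (z : ℂ) (s : Multiset ℂ) (hs : ∀ r ∈ s, z ≠ r) (j : ℕ) :
    eval z (derivative^[j] (pr s))
      = eval z (pr s) * ((j.factorial : ℂ) * PowerSeries.coeff j (gen s z)) := by
  induction s using Multiset.induction_on generalizing j with
  | empty =>
    cases j with
    | zero => simp [pr, gen]
    | succ j => simp [pr, gen, PowerSeries.coeff_one]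
  | cons r s ih =>
    have hr : z - r ≠ 0 := sub_ne_zero.mpr (hs r (Multiset.mem_cons_self r s))
    have ih' := ih fun x hx => hs x (Multiset.mem_cons_of_mem hx)
    have hpr : pr (r ::ₘ s) = (X - C r) * pr s := by simp [pr]
    have hu : (z - r) * (z - r)⁻¹ = 1 := mul_inv_cancel₀ hr
    rw [gen_cons, hpr]
    cases j with
    | zero =>
      have := ih' 0
      simp only [Function.iterate_zero_apply, Nat.factorial_zero, Nat.cast_one, one_mul] at this
      simp only [Function.iterate_zero_apply, Nat.factorial_zero, Nat.cast_one, one_mul, eval_mul,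
        add_mul, mul_assoc, map_add, PowerSeries.coeff_C_mul, PowerSeries.coeff_zero_X_mul,
        mul_zero, add_zero]
      rw [← this]
    | succ j =>
      rw [iter_deriv_lin_mul]
      simp only [eval_add, eval_mul, eval_sub, eval_X, eval_C, ih' (j + 1), ih' j, add_mul,
        one_mul, mul_assoc, map_add, PowerSeries.coeff_C_mul, PowerSeries.coeff_succ_X_mul,
        Nat.factorial_succ]
      push_cast
      linear_combination (-(((j : ℂ) + 1) * (eval z (pr s) * (j.factorial : ℂ)
        * PowerSeries.coeff j (gen s z)))) * hu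

lemma deriv_gen (z : ℂ) (s : Multiset ℂ) :
    PowerSeries.derivative ℂ (gen s z)
      = gen s z * PowerSeries.mk fun i => (-1) ^ i * pw s z (i + 1) := by
  induction s using Multiset.induction_on with
  | empty =>
    ext i
    simp [gen, pw]
  | cons r s ih =>
    set u := (z - r)⁻¹ with hu
    have h1 : (PowerSeries.mk fun i => (-1) ^ i * pw (r ::ₘ s) z (i + 1))
        = (PowerSeries.mk fun i => (-1) ^ i * u ^ (i + 1))
          + PowerSeries.mk fun i => (-1) ^ i * pw s z (i + 1) := by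
      ext i
      simp [pw, hu, mul_add]
    have h2 : (1 + PowerSeries.C u * PowerSeries.X)
        * (PowerSeries.mk fun i => (-1) ^ i * u ^ (i + 1)) = PowerSeries.C u := by
      ext i
      rw [add_mul, one_mul, mul_assoc, map_add, PowerSeries.coeff_C_mul]
      cases i with
      | zero => simp
      | succ i =>
        rw [PowerSeries.coeff_succ_X_mul]
        simp
        ring
    rw [gen_cons, h1, Derivation.leibniz, ih]
    simp only [map_add, Derivation.map_one_eq_zero, zero_add, Derivation.leibniz,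
      PowerSeries.derivative_C, PowerSeries.derivative_X, smul_eq_mul, mul_one, mul_zero, add_zero,
      ← hu]
    linear_combination (-(gen s z)) * h2

lemma newton_rec (z : ℂ) (s : Multiset ℂ) (j : ℕ) :
    PowerSeries.coeff (j + 1) (gen s z) * ((j : ℂ) + 1)
      = ∑ q ∈ Finset.HasAntidiagonal.antidiagonal j,
        PowerSeries.coeff q.1 (gen s z) * ((-1) ^ q.2 * pw s z (q.2 + 1)) := by
  have := congrArg (PowerSeries.coeff j) (deriv_gen z s)
  rw [PowerSeries.coeff_derivative, PowerSeries.coeff_mul] at this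
  simpa using this

lemma coeff_zero_gen (z : ℂ) (s : Multiset ℂ) : PowerSeries.coeff 0 (gen s z) = 1 := by
  induction s using Multiset.induction_on with
  | empty => simp [gen]
  | cons r s ih =>
    rw [gen_cons, add_mul, one_mul, mul_assoc, map_add, PowerSeries.coeff_C_mul,
      PowerSeries.coeff_zero_X_mul, ih]
    simp

lemma rec_bound (a p : ℕ → ℂ) (K ε : ℝ) (hK : 0 ≤ K) (hε0 : 0 ≤ ε) (hε1 : ε ≤ 1)
    (h1 : ‖p 1‖ ≤ K) (h2 : ∀ i, ‖p (i + 2)‖ ≤ ε * K ^ (i + 2)) (a0 : a 0 = 1)
    (hrec : ∀ j : ℕ, a (j + 1) * ((j : ℂ) + 1)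
      = ∑ q ∈ Finset.HasAntidiagonal.antidiagonal j, a q.1 * ((-1) ^ q.2 * p (q.2 + 1))) (j : ℕ) :
    ‖(j.factorial : ℂ) * a j - p 1 ^ j‖ ≤ (j.factorial - 1) * ε * K ^ j := by
  have hp : ∀ i, ‖p (i + 1)‖ ≤ K ^ (i + 1) := by
    intro i
    cases i with
    | zero => simpa using h1
    | succ i => exact (h2 i).trans (mul_le_of_le_one_left (by positivity) hε1)
  have ha : ∀ j, ‖a j‖ ≤ K ^ j := by
    intro j
    induction j using Nat.strong_induction_on with
    | _ j ih =>
      cases j with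
      | zero => simp [a0]
      | succ j =>
        have e := congrArg norm (hrec j)
        have n1 : ‖((j : ℂ) + 1)‖ = (j : ℝ) + 1 := by
          have : ((j : ℂ) + 1) = ((j + 1 : ℕ) : ℂ) := by push_cast; ring
          rw [this, Complex.norm_natCast]; push_cast; ring
        rw [norm_mul, n1] at e
        have b : ‖∑ q ∈ Finset.HasAntidiagonal.antidiagonal j, a q.1 * ((-1) ^ q.2 * p (q.2 + 1))‖
            ≤ ∑ _q ∈ Finset.HasAntidiagonal.antidiagonal j, K ^ (j + 1) := by
          refine norm_sum_le_of_le _ fun q hq => ?_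
          have hq' := Finset.HasAntidiagonal.mem_antidiagonal.mp hq
          rw [norm_mul, norm_mul, norm_pow, norm_neg, norm_one, one_pow, one_mul, ← hq',
            add_assoc, pow_add]
          exact mul_le_mul (ih q.1 (by omega)) (hp _) (norm_nonneg _) (by positivity)
        rw [Finset.sum_const, Finset.Nat.card_antidiagonal, nsmul_eq_mul, ← e] at b
        push_cast at b
        have : (0 : ℝ) < j + 1 := by positivity
        nlinarith
  induction j with
  | zero => simp [a0]
  | succ j ih =>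
    have e := hrec j
    rw [Finset.Nat.antidiagonal_eq_map', Finset.sum_map, Finset.sum_range_succ'] at e
    simp only [Function.Embedding.coeFn_mk, pow_zero, one_mul, zero_add, Nat.sub_zero] at e
    have b : ‖∑ i ∈ Finset.range j, a (j - (i + 1)) * ((-1) ^ (i + 1) * p (i + 1 + 1))‖
        ≤ ∑ _i ∈ Finset.range j, ε * K ^ (j + 1) := by
      refine norm_sum_le_of_le _ fun i hi => ?_
      have hi' := Finset.mem_range.mp hi
      rw [norm_mul, norm_mul, norm_pow, norm_neg, norm_one, one_pow, one_mul]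
      calc _ ≤ K ^ (j - (i + 1)) * (ε * K ^ (i + 2)) :=
            mul_le_mul (ha _) (h2 i) (norm_nonneg _) (by positivity)
        _ = ε * K ^ (j - (i + 1) + (i + 2)) := by rw [pow_add]; ring
        _ = ε * K ^ (j + 1) := by congr 2; omega
    rw [Finset.sum_const, Finset.card_range, nsmul_eq_mul] at b
    set t := ∑ i ∈ Finset.range j, a (j - (i + 1)) * ((-1) ^ (i + 1) * p (i + 1 + 1))
    have e2 : (((j + 1).factorial : ℕ) : ℂ) * a (j + 1) - p 1 ^ (j + 1)
        = (j.factorial : ℂ) * t + ((j.factorial : ℂ) * a j - p 1 ^ j) * p 1 := by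
      rw [Nat.factorial_succ]
      push_cast
      linear_combination (j.factorial : ℂ) * e
    have hf : (1 : ℝ) ≤ j.factorial := by exact_mod_cast j.factorial_pos
    rw [e2]
    refine (norm_add_le_of_le (norm_mul_le_of_le (Complex.norm_natCast _).le b)
      (norm_mul_le_of_le ih h1)).trans (le_of_eq ?_)
    rw [Nat.factorial_succ]
    push_cast
    ring

lemma roots_fac (Q : ℂ[X]) : C Q.leadingCoeff * pr Q.roots = Q :=
  C_leadingCoeff_mul_prod_multiset_X_sub_C IsAlgClosed.card_roots_eq_natDegree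

lemma E_eq_gen (Q : ℂ[X]) (z : ℂ) (hz : eval z Q ≠ 0) (j : ℕ) :
    E Q j z = (j.factorial : ℂ) * PowerSeries.coeff j (gen Q.roots z) := by
  have hne : ∀ r ∈ Q.roots, z ≠ r := by
    rintro r hr rfl
    exact hz (isRoot_of_mem_roots hr)
  unfold E
  rw [div_eq_iff hz]
  have e1 : derivative^[j] Q = C Q.leadingCoeff * derivative^[j] (pr Q.roots) := by
    conv_lhs => rw [← roots_fac Q]
    rw [iterate_derivative_C_mul]
  have e2 : eval z Q = Q.leadingCoeff * eval z (pr Q.roots) := by
    conv_lhs => rw [← roots_fac Q]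
    simp
  rw [e1, e2, eval_mul, eval_C, coeff_gen z _ hne]
  ring

lemma E_one (Q : ℂ[X]) (z : ℂ) (hz : eval z Q ≠ 0) : E Q 1 z = pw Q.roots z 1 := by
  have := newton_rec z Q.roots 0
  rw [E_eq_gen Q z hz]
  simpa [coeff_zero_gen] using this

lemma ne_of_far {Q : ℂ[X]} {z : ℂ} {δ : ℝ} (hδ : 0 < δ)
    (hz : ∀ r, eval r Q = 0 → δ⁻¹ ≤ ‖z - r‖) : eval z Q ≠ 0 := by
  intro h
  have := hz z h
  rw [sub_self, norm_zero] at this
  exact absurd this (not_le.mpr (inv_pos.mpr hδ))

/-- Newton estimate of every order. -/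
lemma approx_all (Q : ℂ[X]) (m : ℕ) (hm : Q.natDegree ≤ m) (z : ℂ) (δ : ℝ) (hδ : 0 < δ)
    (hz : ∀ r, eval r Q = 0 → δ⁻¹ ≤ ‖z - r‖) (K ε : ℝ) (hK : ‖E Q 1 z‖ ≤ K) (hδK : δ ≤ K)
    (hε0 : 0 ≤ ε) (hε1 : ε ≤ 1) (hmK : m * δ ^ 2 ≤ ε * K ^ 2) (j : ℕ) :
    ‖E Q j z - E Q 1 z ^ j‖ ≤ j.factorial * ε * K ^ j := by
  have hQz := ne_of_far hδ hz
  have hK0 : 0 ≤ K := hδ.le.trans hδK
  have hcard : (Multiset.card Q.roots : ℝ) ≤ m := by
    exact_mod_cast (card_roots' Q).trans hm
  have b : ∀ i : ℕ, ‖pw Q.roots z (i + 2)‖ ≤ ε * K ^ (i + 2) := by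
    intro i
    refine (norm_pw_le z Q.roots δ hδ (fun r hr => hz r (isRoot_of_mem_roots hr)) _).trans ?_
    have : δ ^ i ≤ K ^ i := pow_le_pow_left₀ hδ.le hδK i
    calc (Multiset.card Q.roots : ℝ) * δ ^ (i + 2) ≤ m * δ ^ (i + 2) := by gcongr
      _ = (m * δ ^ 2) * δ ^ i := by ring
      _ ≤ (ε * K ^ 2) * K ^ i := by gcongr
      _ = ε * K ^ (i + 2) := by ring
  rw [E_one Q z hQz] at hK ⊢
  rw [E_eq_gen Q z hQz]
  refine (rec_bound (fun j => PowerSeries.coeff j (gen Q.roots z)) (pw Q.roots z) K ε hK0 hε0 hε1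
    hK b (coeff_zero_gen _ _) (newton_rec z _) j).trans ?_
  have : 0 ≤ ε * K ^ j := by positivity
  nlinarith

/-- A product of shifted Hermite operators. -/
noncomputable def Lops (l : List ℝ) (P : ℂ[X]) : ℂ[X] := l.foldr (fun A G => Lop A G) P

lemma iter_Lop (A : ℂ) (G : ℂ[X]) (i : ℕ) :
    derivative^[i] (Lop A G) = derivative^[i + 2] G - 2 * X * derivative^[i + 1] G
      + C (A - 2 * i) * derivative^[i] G := by
  induction i with
  | zero => simp [Lop]
  | succ i ih =>
    rw [Function.iterate_succ_apply', ih]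
    simp only [Function.iterate_succ_apply', derivative_add, derivative_sub, derivative_mul,
      derivative_X, derivative_C, derivative_ofNat, map_sub, map_mul, map_add, map_one,
      map_natCast, map_ofNat, Nat.cast_add, Nat.cast_one, derivative_natCast]
    ring

lemma ops_est (n i : ℕ) : ∃ c : ℝ, 0 ≤ c ∧ ∀ (Q : ℂ[X]) (z w : ℂ) (K ε : ℝ) (l : List ℝ),
    l.length = n → eval z Q ≠ 0 → 0 ≤ K → 0 ≤ ε → ε ≤ 1 → ‖w‖ ≤ K → ‖z‖ ≤ ε * K → 1 ≤ ε * K ^ 2 →
    (∀ A ∈ l, |A| ≤ 4 * K ^ 2) → (∀ j, ‖E Q j z - w ^ j‖ ≤ j.factorial * ε * K ^ j) →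
    ‖w ^ i * (l.map fun A : ℝ => w ^ 2 + A).prod‖ ≤ 5 ^ n * K ^ (i + 2 * n) ∧
    ‖eval z (derivative^[i] (Lops l Q)) / eval z Q - w ^ i * (l.map fun A : ℝ => w ^ 2 + A).prod‖
      ≤ c * ε * K ^ (i + 2 * n) := by
  induction n generalizing i with
  | zero =>
    refine ⟨i.factorial, by positivity, fun Q z w K ε l hl _ hK _ _ hw _ _ _ hE => ?_⟩
    obtain rfl := List.length_eq_zero_iff.mp hl
    refine ⟨?_, by simpa [Lops, E] using hE i⟩
    simpa using pow_le_pow_left₀ (norm_nonneg _) hw i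
  | succ n ih =>
    obtain ⟨c0, p0, h0⟩ := ih i
    obtain ⟨c1, p1, h1⟩ := ih (i + 1)
    obtain ⟨c2, p2, h2⟩ := ih (i + 2)
    refine ⟨c2 + 2 * (c1 + 5 ^ n) + 4 * c0 + 2 * i * (c0 + 5 ^ n), by positivity,
      fun Q z w K ε l hl hQ hK e0 e1 hw hz hε hA hE => ?_⟩
    obtain ⟨A, l, rfl⟩ := List.exists_cons_of_length_eq_add_one hl
    have hl' : l.length = n := by simpa using hl
    have hA' : ∀ B ∈ l, |B| ≤ 4 * K ^ 2 := fun B hB => hA B (List.mem_cons_of_mem _ hB)
    have hA0 : ‖(A : ℂ)‖ ≤ 4 * K ^ 2 := by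
      rw [Complex.norm_real, Real.norm_eq_abs]; exact hA A List.mem_cons_self
    obtain ⟨a0, b0⟩ := h0 Q z w K ε l hl' hQ hK e0 e1 hw hz hε hA' hE
    obtain ⟨a1, b1⟩ := h1 Q z w K ε l hl' hQ hK e0 e1 hw hz hε hA' hE
    obtain ⟨a2, b2⟩ := h2 Q z w K ε l hl' hQ hK e0 e1 hw hz hε hA' hE
    rw [List.map_cons, List.prod_cons]
    set P := (l.map fun A : ℝ => w ^ 2 + A).prod
    set Y := K ^ (i + 2 * n) with hY
    have y0 : 0 ≤ Y := by positivity
    have y1 : K ^ (i + 1 + 2 * n) = K * Y := by rw [hY]; ring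
    have y2 : K ^ (i + 2 + 2 * n) = K ^ 2 * Y := by rw [hY]; ring
    have y3 : K ^ (i + 2 * (n + 1)) = K ^ 2 * Y := by rw [hY]; ring
    rw [y1] at a1 b1
    rw [y2] at a2 b2
    rw [y3]
    constructor
    · have : w ^ i * ((w ^ 2 + A) * P) = w ^ (i + 2) * P + A * (w ^ i * P) := by ring
      rw [this]
      refine (norm_add_le_of_le a2 (norm_mul_le_of_le hA0 a0)).trans (le_of_eq ?_)
      ring
    · have e : Lops (A :: l) Q = Lop A (Lops l Q) := rfl
      rw [e, iter_Lop]
      set g0 := eval z (derivative^[i] (Lops l Q)) / eval z Q with hg0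
      set g1 := eval z (derivative^[i + 1] (Lops l Q)) / eval z Q with hg1
      set g2 := eval z (derivative^[i + 2] (Lops l Q)) / eval z Q with hg2
      have e2 : eval z (derivative^[i + 2] (Lops l Q) - 2 * X * derivative^[i + 1] (Lops l Q)
            + C ((A : ℂ) - 2 * i) * derivative^[i] (Lops l Q)) / eval z Q
            - w ^ i * ((w ^ 2 + A) * P)
          = (g2 - w ^ (i + 2) * P) - 2 * (z * g1) + A * (g0 - w ^ i * P) - 2 * (i * g0) := by
        simp only [eval_add, eval_sub, eval_mul, eval_X, eval_C, eval_ofNat, hg0, hg1, hg2]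
        field_simp
        ring
      have t0 : ‖g0‖ ≤ (c0 + 5 ^ n) * Y := by
        have : g0 = (g0 - w ^ i * P) + w ^ i * P := by ring
        rw [this]
        refine (norm_add_le_of_le b0 a0).trans ?_
        have : c0 * ε * Y ≤ c0 * 1 * Y := by gcongr
        linarith
      have t0' : ‖g0‖ ≤ (c0 + 5 ^ n) * (ε * K ^ 2 * Y) := by
        refine t0.trans ?_
        gcongr
        exact le_mul_of_one_le_left y0 hε
      have t1 : ‖g1‖ ≤ (c1 + 5 ^ n) * (K * Y) := by
        have : g1 = (g1 - w ^ (i + 1) * P) + w ^ (i + 1) * P := by ring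
        rw [this]
        refine (norm_add_le_of_le b1 a1).trans ?_
        have : c1 * ε * (K * Y) ≤ c1 * 1 * (K * Y) := by gcongr
        linarith
      have n2 : ‖(2 : ℂ)‖ ≤ 2 := by simp
      rw [e2]
      refine (norm_sub_le_of_le (norm_add_le_of_le (norm_sub_le_of_le b2
        (norm_mul_le_of_le n2 (norm_mul_le_of_le hz t1))) (norm_mul_le_of_le hA0 b0))
        (norm_mul_le_of_le n2 (norm_mul_le_of_le (Complex.norm_natCast i).le t0'))).trans
        (le_of_eq ?_)
      ring

end Pool.Agent.P.MP_6deb90_an
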