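import Mathlib
import Pool.Agent.P.MP_6deb90_an.G.Newt

/-!
Counting roots in a disc: the argument principle for a quotient with positive real part, a
pigeonhole lemma, and the connectedness of an annulus.
-/

namespace Pool.Agent.P.MP_6deb90_an
open Polynomial Metric

/-- The number of elements of a multiset in the closed disc of a given radius. -/
noncomputable def cnt (s : Multiset ℂ) (ρ : ℝ) : ℕ := Multiset.card (s.filter fun r => ‖r‖ ≤ ρ)

lemma cnt_mono (s : Multiset ℂ) {ρ ρ' : ℝ} (h : ρ ≤ ρ') : cnt s ρ ≤ cnt s ρ' :=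
  Multiset.card_le_card (Multiset.monotone_filter_right s fun _ hr => le_trans hr h)

lemma circ_pw (s : Multiset ℂ) {ρ : ℝ} (hρ : 0 < ρ) (hs : ∀ r ∈ s, ‖r‖ ≠ ρ) :
    ContinuousOn (fun z => pw s z 1) (sphere 0 ρ) ∧
    (∮ z in C(0, ρ), pw s z 1) = 2 * Real.pi * Complex.I * cnt s ρ := by
  induction s using Multiset.induction_on with
  | empty => simp [pw, cnt, continuousOn_const, circleIntegral]
  | cons r s ih =>
    obtain ⟨h1, h2⟩ := ih fun x hx => hs x (Multiset.mem_cons_of_mem hx)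
    have hr := hs r (Multiset.mem_cons_self r s)
    have e : (fun z => pw (r ::ₘ s) z 1) = fun z => (z - r)⁻¹ + pw s z 1 := by
      ext z; simp [pw]
    have c1 : ContinuousOn (fun z : ℂ => (z - r)⁻¹) (sphere 0 ρ) := by
      refine (continuousOn_id.sub continuousOn_const).inv₀ fun z hz h => hr ?_
      have : z = r := sub_eq_zero.mp h
      simpa [this] using hz
    rw [e]
    refine ⟨c1.add h1, ?_⟩
    rw [circleIntegral.integral_add (c1.circleIntegrable hρ.le) (h1.circleIntegrable hρ.le), h2]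
    unfold cnt
    rcases lt_or_gt_of_ne hr with h | h
    · rw [circleIntegral.integral_sub_inv_of_mem_ball (by simpa using h),
        Multiset.filter_cons_of_pos (p := fun r : ℂ => ‖r‖ ≤ ρ) _ h.le, Multiset.card_cons]
      push_cast
      ring
    · rw [Multiset.filter_cons_of_neg (p := fun r : ℂ => ‖r‖ ≤ ρ) _ (not_le.mpr h)]
      have hne : ∀ z ∈ closedBall (0 : ℂ) ρ, z - r ≠ 0 := by
        intro z hz h'
        have : z = r := sub_eq_zero.mp h'
        rw [this, mem_closedBall_zero_iff] at hz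
        linarith
      rw [Complex.circleIntegral_eq_zero_of_differentiable_on_off_countable hρ.le
        (f := fun z : ℂ => (z - r)⁻¹) Set.countable_empty ((continuousOn_id.sub continuousOn_const).inv₀ hne)
        (fun z hz => (differentiableAt_id.sub_const r).inv (hne z (ball_subset_closedBall hz.1))),
        zero_add]

/-- The argument principle for a quotient with positive real part on a circle. -/
lemma cnt_eq_of_re (P Q : ℂ[X]) {ρ : ℝ} (hρ : 0 < ρ)
    (h : ∀ z : ℂ, ‖z‖ = ρ → 0 < (eval z P / eval z Q).re) : cnt P.roots ρ = cnt Q.roots ρ := by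
  have hP : ∀ z : ℂ, ‖z‖ = ρ → eval z P ≠ 0 := fun z hz h0 => by simpa [h0] using h z hz
  have hQ : ∀ z : ℂ, ‖z‖ = ρ → eval z Q ≠ 0 := fun z hz h0 => by simpa [h0] using h z hz
  obtain ⟨p1, p2⟩ := circ_pw P.roots hρ fun r hr h0 => hP r h0 (isRoot_of_mem_roots hr)
  obtain ⟨q1, q2⟩ := circ_pw Q.roots hρ fun r hr h0 => hQ r h0 (isRoot_of_mem_roots hr)
  have key : (∮ z in C(0, ρ), (pw P.roots z 1 - pw Q.roots z 1)) = 0 := by
    refine circleIntegral.integral_eq_zero_of_hasDerivWithinAt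
      (f := fun z => Complex.log (eval z P / eval z Q)) hρ.le fun z hz => ?_
    have hz' : ‖z‖ = ρ := by simpa using hz
    have d := ((P.hasDerivAt z).div (Q.hasDerivAt z) (hQ z hz')).clog (Or.inl (h z hz'))
    refine (d.congr_deriv ?_).hasDerivWithinAt
    rw [← E_one P z (hP z hz'), ← E_one Q z (hQ z hz')]
    have a1 := hP z hz'
    have a2 := hQ z hz'
    simp only [E, Function.iterate_one, Pi.div_apply]
    field_simp
  rw [circleIntegral.integral_sub (p1.circleIntegrable hρ.le) (q1.circleIntegrable hρ.le), p2, q2,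
    ← mul_sub, mul_eq_zero] at key
  have := key.resolve_left Complex.two_pi_I_ne_zero
  exact_mod_cast sub_eq_zero.mp this

/-- Among more disjoint intervals than points, one interval contains no point. -/
lemma exists_gap (xs : Multiset ℝ) (n : ℕ) (hn : Multiset.card xs ≤ n) (b : ℕ → ℝ)
    (hb : Monotone b) : ∃ j ≤ n, ∀ x ∈ xs, x ≤ b j ∨ b (j + 1) ≤ x := by
  classical
  by_contra hcon
  push Not at hcon
  choose! f hf using hcon
  have : (Finset.range (n + 1)).card ≤ xs.toFinset.card := by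
    refine Finset.card_le_card_of_injOn f (fun j hj => ?_) fun i hi j hj hij => ?_
    · have := Finset.mem_range.mp (Finset.mem_coe.mp hj)
      exact Finset.mem_coe.mpr (Multiset.mem_toFinset.mpr (hf j (by omega)).1)
    · have hi' := hf i (by have := Finset.mem_range.mp (Finset.mem_coe.mp hi); omega)
      have hj' := hf j (by have := Finset.mem_range.mp (Finset.mem_coe.mp hj); omega)
      by_contra hne
      rcases lt_or_gt_of_ne hne with h | h
      · have := hb (show i + 1 ≤ j from h)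
        linarith [hi'.2.2, hj'.2.1]
      · have := hb (show j + 1 ≤ i from h)
        linarith [hi'.2.1, hj'.2.2]
  have h2 := xs.toFinset_card_le
  rw [Finset.card_range] at this
  omega

/-- A gap in the moduli of the roots. -/
lemma root_gap (s : Multiset ℂ) (n : ℕ) (b : ℕ → ℝ) (hb : Monotone b)
    (hn : cnt s (b (n + 1)) ≤ n) : ∃ j ≤ n, ∀ r ∈ s, ‖r‖ ≤ b j ∨ b (j + 1) ≤ ‖r‖ := by
  obtain ⟨j, hj, h⟩ := exists_gap ((s.filter fun r => ‖r‖ ≤ b (n + 1)).map norm) n
    (by rwa [Multiset.card_map]) b hb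
  refine ⟨j, hj, fun r hr => ?_⟩
  by_cases h' : ‖r‖ ≤ b (n + 1)
  · exact h _ (Multiset.mem_map_of_mem _ (Multiset.mem_filter.mpr ⟨hr, h'⟩))
  · exact Or.inr ((hb (by omega)).trans (not_le.mp h').le)

lemma isPreconnected_ann (a b : ℝ) (ha : 0 ≤ a) :
    IsPreconnected {z : ℂ | a ≤ ‖z‖ ∧ ‖z‖ ≤ b} := by
  have : {z : ℂ | a ≤ ‖z‖ ∧ ‖z‖ ≤ b}
      = (fun q : ℝ × ℝ => (q.1 : ℂ) * Complex.exp (q.2 * Complex.I)) '' (Set.Icc a b ×ˢ Set.univ) := by
    ext z
    constructor
    · intro hz
      exact ⟨(‖z‖, z.arg), ⟨hz, trivial⟩, Complex.norm_mul_exp_arg_mul_I z⟩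
    · rintro ⟨⟨t, θ⟩, ⟨ht, -⟩, rfl⟩
      have : ‖(t : ℂ) * Complex.exp (θ * Complex.I)‖ = t := by
        rw [norm_mul, Complex.norm_exp_ofReal_mul_I, mul_one, Complex.norm_real,
          Real.norm_eq_abs, abs_of_nonneg (ha.trans ht.1)]
      simp only [Set.mem_ofPred_eq, this]
      exact ht
  rw [this]
  exact (isPreconnected_Icc.prod isPreconnected_univ).image _ (by fun_prop)

/-- The logarithmic derivative times the variable, on a circle inside a wide gap. -/
lemma norm_mul_pw_le (s : Multiset ℂ) (z : ℂ) {ρ Λ : ℝ} (hρ : 0 < ρ) (hΛ : 2 ≤ Λ) (hz : ‖z‖ = ρ)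
    (hs : ∀ r ∈ s, Λ * ‖r‖ ≤ ρ ∨ Λ * ρ ≤ ‖r‖) :
    ‖z * pw s z 1‖ ≤ cnt s ρ + Multiset.card s * (2 / Λ) := by
  induction s using Multiset.induction_on with
  | empty => simp [pw, cnt]
  | cons r s ih =>
    have h1 := ih fun x hx => hs x (Multiset.mem_cons_of_mem hx)
    have e : z * pw (r ::ₘ s) z 1 = z * (z - r)⁻¹ + z * pw s z 1 := by simp [pw, mul_add]
    have hΛ0 : 0 < Λ := by linarith
    have t1 : ‖z‖ - ‖r‖ ≤ ‖z - r‖ := norm_sub_norm_le z r
    have t2 : ‖r‖ - ‖z‖ ≤ ‖z - r‖ := by rw [norm_sub_rev]; exact norm_sub_norm_le r z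
    have hr0 := norm_nonneg r
    rw [e, Multiset.card_cons]
    unfold cnt at h1 ⊢
    rcases hs r (Multiset.mem_cons_self r s) with h | h
    · have hr : ‖r‖ ≤ ρ := by nlinarith
      have hpos : 0 < ‖z - r‖ := by nlinarith
      have b : ‖z * (z - r)⁻¹‖ ≤ 1 + 2 / Λ := by
        rw [norm_mul, norm_inv, hz, ← div_eq_mul_inv, div_le_iff₀ hpos]
        have : ρ ≤ (1 + 2 / Λ) * (ρ - ‖r‖) := by
          rw [one_add_div hΛ0.ne', div_mul_eq_mul_div, le_div_iff₀ hΛ0]
          nlinarith
        refine this.trans ?_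
        rw [hz] at t1
        gcongr
      rw [Multiset.filter_cons_of_pos (p := fun r : ℂ => ‖r‖ ≤ ρ) _ hr, Multiset.card_cons]
      push_cast
      have := norm_add_le_of_le b h1
      linarith
    · have hr : ρ < ‖r‖ := by nlinarith
      have hpos : 0 < ‖z - r‖ := by nlinarith
      have b : ‖z * (z - r)⁻¹‖ ≤ 2 / Λ := by
        rw [norm_mul, norm_inv, hz, ← div_eq_mul_inv, div_le_div_iff₀ hpos hΛ0]
        rw [hz] at t2
        nlinarith
      rw [Multiset.filter_cons_of_neg (p := fun r : ℂ => ‖r‖ ≤ ρ) _ (not_le.mpr hr)]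
      push_cast
      have := norm_add_le_of_le b h1
      linarith

end Pool.Agent.P.MP_6deb90_an
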