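import Mathlib
import Pool.Agent.P.MP_6deb90_an.G.Arg

/-!
The reduction step for a lacunary Hermite expansion with any number of terms: the shifted Hermite
operator that removes the top term does not create zeros in a small disc.
-/

namespace Pool.Agent.P.MP_6deb90_an
open Polynomial

/-- A polynomial of low degree plus a finite Hermite expansion. -/
noncomputable def Ex (G : ℂ[X]) (S : Finset ℕ) (a : ℕ → ℂ) : ℂ[X] :=
  G + ∑ n ∈ S, C (a n) * Hp n

lemma natDegree_Lop (A : ℂ) {G : ℂ[X]} {p : ℕ} (h : G.natDegree ≤ p) :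
    (Lop A G).natDegree ≤ p := by
  have h1 := natDegree_derivative_le G
  have h2 := natDegree_derivative_le (derivative G)
  refine (natDegree_add_le _ _).trans (max_le ((natDegree_sub_le _ _).trans
    (max_le (by omega) ?_)) ((natDegree_C_mul_le _ _).trans h))
  rcases Nat.eq_zero_or_pos G.natDegree with h0 | h0
  · simp [derivative_of_natDegree_zero h0]
  · refine natDegree_mul_le.trans ?_
    have : (2 * X : ℂ[X]).natDegree ≤ 1 := by compute_degree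
    omega

lemma Lop_Hp' (A : ℂ) (n : ℕ) : Lop A (Hp n) = C (A - 2 * n) * Hp n := by
  rw [Lop_shift (2 * n) A, Lop_Hp, zero_add]

lemma Lop_sum (A : ℂ) (S : Finset ℕ) (a : ℕ → ℂ) :
    Lop A (∑ n ∈ S, C (a n) * Hp n) = ∑ n ∈ S, C (a n * (A - 2 * n)) * Hp n := by
  induction S using Finset.induction_on with
  | empty => simp [Lop_zero]
  | insert n S hn ih =>
    rw [Finset.sum_insert hn, Finset.sum_insert hn, Lop_add, ih, Lop_C_mul, Lop_Hp', map_mul,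
      mul_assoc]

lemma iter_Lops {p : ℕ} {G : ℂ[X]} (hG : G.natDegree ≤ p) (S : Finset ℕ) (a : ℕ → ℂ)
    (l : List ℝ) : derivative^[p + 1] (Lops l (Ex G S a))
      = ∑ n ∈ S, C (a n * (l.map fun A : ℝ => (A : ℂ) - 2 * n).prod)
        * derivative^[p + 1] (Hp n) := by
  have : ∃ G' : ℂ[X], G'.natDegree ≤ p ∧ Lops l (Ex G S a)
      = Ex G' S fun n => a n * (l.map fun A : ℝ => (A : ℂ) - 2 * n).prod := by
    induction l with
    | nil => exact ⟨G, hG, by simp [Lops]⟩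
    | cons A l ih =>
      obtain ⟨G', h1, h2⟩ := ih
      refine ⟨Lop A G', natDegree_Lop A h1, ?_⟩
      have e : Lops (A :: l) (Ex G S a) = Lop A (Lops l (Ex G S a)) := rfl
      rw [e, h2, Ex, Lop_add, Lop_sum, Ex]
      congr 1
      refine Finset.sum_congr rfl fun n _ => ?_
      rw [List.map_cons, List.prod_cons, mul_right_comm (a n), mul_assoc (a n)]
  obtain ⟨G', h1, h2⟩ := this
  rw [h2, Ex, iterate_map_add, iterate_derivative_eq_zero (by omega), zero_add,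
    iterate_derivative_sum]
  exact Finset.sum_congr rfl fun n _ => iterate_derivative_C_mul _ _ _

lemma natDegree_Ex {p m : ℕ} {G : ℂ[X]} (hG : G.natDegree ≤ p) (hp : p ≤ m) {S : Finset ℕ}
    (hS : ∀ n ∈ S, n ≤ m) (a : ℕ → ℂ) : (Ex G S a).natDegree ≤ m :=
  (natDegree_add_le _ _).trans (max_le (hG.trans hp) (natDegree_sum_le_of_forall_le _ _
    fun n hn => (natDegree_C_mul_le _ _).trans ((natDegree_Hp n).trans (hS n hn))))

lemma sq_add_lower' (w : ℂ) (A c : ℝ) (hA : 0 ≤ A) (c0 : 0 ≤ c) (c1 : c ≤ 1)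
    (h : c * w.im ^ 2 ≤ |w.im ^ 2 - A|) : c * ‖w‖ ^ 2 ≤ ‖w ^ 2 + A‖ := by
  have h1 : ‖w‖ ^ 2 = w.re ^ 2 + w.im ^ 2 := by
    rw [Complex.sq_norm, Complex.normSq_apply]; ring
  have h2 : ‖w ^ 2 + A‖ ^ 2 = (w.re ^ 2 - w.im ^ 2 + A) ^ 2 + (2 * w.re * w.im) ^ 2 := by
    rw [Complex.sq_norm, Complex.normSq_apply]
    simp [pow_two]
    ring_nf
  have h3 : (c * w.im ^ 2) ^ 2 ≤ (w.im ^ 2 - A) ^ 2 := by
    rw [← sq_abs (w.im ^ 2 - A)]
    exact pow_le_pow_left₀ (by positivity) h 2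
  refine le_of_sq_le_sq ?_ (norm_nonneg _)
  rw [h2, h1]
  have c2 : 0 ≤ 1 - c ^ 2 := by nlinarith
  have := mul_nonneg c2 (show 0 ≤ (w.re ^ 2) ^ 2 + 2 * (w.re ^ 2 * w.im ^ 2) by positivity)
  nlinarith [mul_nonneg (sq_nonneg w.re) hA]

lemma prod_lower (f : ℝ → ℂ) (y : ℝ) (hy : 0 ≤ y) (l : List ℝ) (h : ∀ A ∈ l, y ≤ ‖f A‖) :
    y ^ l.length ≤ ‖(l.map f).prod‖ := by
  induction l with
  | nil => simp
  | cons A l ih =>
    rw [List.map_cons, List.prod_cons, norm_mul, List.length_cons, pow_succ']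
    exact mul_le_mul (h A List.mem_cons_self) (ih fun B hB => h B (List.mem_cons_of_mem _ hB))
      (by positivity) (norm_nonneg _)

lemma re_pos (w e z : ℂ) (μ : ℝ) (m : ℕ) (hμ : 0 < μ) (hm : μ ^ 2 = 2 * m)
    (hw : |w.im| ≤ 3 * μ / 4) (he : ‖e - w ^ 2‖ ≤ μ ^ 2 / 100) (hz : ‖z‖ ≤ μ / 100) :
    0 < (e - 2 * z * w + 2 * m).re := by
  have h1 : (e - 2 * z * w + 2 * m).re
      = (e - w ^ 2).re - 2 * (z * w).re + w.re ^ 2 - w.im ^ 2 + 2 * m := by
    simp [pow_two]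
    ring
  have h2 := (abs_le.mp ((Complex.abs_re_le_norm _).trans he)).1
  have h3 : ‖z * w‖ ≤ μ / 100 * (|w.re| + 3 * μ / 4) :=
    norm_mul_le_of_le hz ((Complex.norm_le_abs_re_add_abs_im w).trans (by linarith))
  have h4 := (Complex.re_le_norm _).trans h3
  have h5 : w.im ^ 2 ≤ (3 * μ / 4) ^ 2 := by
    rw [← sq_abs]; exact pow_le_pow_left₀ (abs_nonneg _) hw 2
  rw [h1, ← hm, ← sq_abs w.re]
  nlinarith [sq_nonneg (|w.re| - μ / 100), pow_pos hμ 2]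

lemma Lop_div (Q : ℂ[X]) (A z : ℂ) (hz : eval z Q ≠ 0) :
    eval z (Lop A Q) / eval z Q = E Q 2 z - 2 * z * E Q 1 z + A := by
  rw [eval_Lop]
  unfold E
  field_simp

lemma norm_eval_conj (P : ℂ[X]) (h : P.map (starRingEnd ℂ) = P) (z : ℂ) :
    ‖eval ((starRingEnd ℂ) z) P‖ = ‖eval z P‖ := by
  have : eval ((starRingEnd ℂ) z) P = (starRingEnd ℂ) (eval z P) := by
    conv_lhs => rw [← h]
    rw [eval_map, eval₂_at_apply]
  rw [this, Complex.norm_conj]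

/-- The list of eigenvalues attached to a set of indices. -/
noncomputable def lev (S : Finset ℕ) : List ℝ := S.toList.map fun n : ℕ => 2 * (n : ℝ)

lemma length_lev (S : Finset ℕ) : (lev S).length = S.card := by simp [lev]

lemma mem_lev {S : Finset ℕ} {A : ℝ} : A ∈ lev S ↔ ∃ n ∈ S, 2 * (n : ℝ) = A := by simp [lev]

lemma prod_lev_zero {S : Finset ℕ} {n : ℕ} (hn : n ∈ S) :
    ((lev S).map fun A : ℝ => (A : ℂ) - 2 * n).prod = 0 := by
  refine List.prod_eq_zero (List.mem_map.mpr ⟨2 * n, mem_lev.mpr ⟨n, hn, rfl⟩, ?_⟩)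
  push_cast
  ring

lemma prod_lev_one {S : Finset ℕ} {n : ℕ} (hn : n ∉ S) :
    1 ≤ ‖((lev S).map fun A : ℝ => (A : ℂ) - 2 * n).prod‖ := by
  have := prod_lower (fun A : ℝ => (A : ℂ) - 2 * n) 1 zero_le_one (lev S) (by
    intro A hA
    obtain ⟨n', h1, rfl⟩ := mem_lev.mp hA
    have e : (((2 * (n' : ℝ) : ℝ) : ℂ) - 2 * n) = ((2 * (n' : ℤ) - 2 * n : ℤ) : ℂ) := by
      push_cast; ring
    have hne : n' ≠ n := fun h => hn (h ▸ h1)
    rw [e, Complex.norm_intCast]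
    have : (1 : ℤ) ≤ |2 * (n' : ℤ) - 2 * n| := Int.one_le_abs (by omega)
    exact_mod_cast this)
  simpa using this

/-- The case of a small top index. -/
lemma small (p : ℕ) (s M : ℝ) (hs : 1 ≤ s) : ∃ R : ℝ, ∀ (Q : ℂ[X]) (m : ℕ), Q ≠ 0 →
    Q.natDegree ≤ m → p ≤ m → (m : ℝ) ≤ M → cnt Q.roots R < p →
    cnt (Lop (2 * m) Q).roots s ≤ cnt Q.roots R := by
  set Λ : ℝ := 10 * (|M| + 1) with hΛ
  have hΛ1 : 10 ≤ Λ := by have := abs_nonneg M; linarith
  have hmono : Monotone fun j : ℕ => s * Λ ^ (2 * j) := fun i j hij => by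
    have : Λ ^ (2 * i) ≤ Λ ^ (2 * j) := pow_le_pow_right₀ (by linarith) (by omega)
    simp only
    gcongr
  refine ⟨s * Λ ^ (2 * (p + 1)), fun Q m hQ hd hp hM hc => ?_⟩
  obtain ⟨j, hj, hgap⟩ := root_gap Q.roots p _ hmono hc.le
  set ρ := s * Λ ^ (2 * j + 1) with hρ
  have a1 : 1 ≤ Λ ^ (2 * j) := one_le_pow₀ (by linarith)
  have a2 : ρ = Λ * (s * Λ ^ (2 * j)) := by rw [hρ]; ring
  have a3 : s ≤ s * Λ ^ (2 * j) := le_mul_of_one_le_right (by linarith) a1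
  have hΛρ : Λ ≤ ρ := by rw [a2]; nlinarith
  have hsρ : s ≤ ρ := by rw [a2]; nlinarith
  have hρR : ρ ≤ s * Λ ^ (2 * (p + 1)) := by
    have : Λ ^ (2 * j + 1) ≤ Λ ^ (2 * (p + 1)) := pow_le_pow_right₀ (by linarith) (by omega)
    rw [hρ]; gcongr
  have hgap' : ∀ r ∈ Q.roots, Λ * ‖r‖ ≤ ρ ∨ Λ * ρ ≤ ‖r‖ := by
    intro r hr
    rcases hgap r hr with h | h
    · left; rw [a2]; gcongr
    · right
      refine le_trans (le_of_eq ?_) h
      rw [hρ]; ring
  refine (cnt_mono _ hsρ).trans (le_trans (le_of_eq ?_) (cnt_mono _ hρR))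
  refine cnt_eq_of_re _ _ (by linarith) fun z hz => ?_
  have hδ : 0 < 2 / Λ := by positivity
  have hfar : ∀ r, eval r Q = 0 → (2 / Λ)⁻¹ ≤ ‖z - r‖ := by
    intro r hr
    have t1 : ‖z‖ - ‖r‖ ≤ ‖z - r‖ := norm_sub_norm_le z r
    have t2 : ‖r‖ - ‖z‖ ≤ ‖z - r‖ := by rw [norm_sub_rev]; exact norm_sub_norm_le r z
    have := norm_nonneg r
    rw [inv_div]
    rcases hgap' r ((mem_roots hQ).mpr hr) with h | h <;> nlinarith
  have hQz := ne_of_far hδ hfar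
  obtain ⟨b1, b2, -⟩ := approx Q m hd z _ hδ hfar
  have b3 := norm_mul_pw_le Q.roots z (by linarith) (by linarith : 2 ≤ Λ) hz hgap'
  rw [← E_one Q z hQz] at b3
  have c1 : (m : ℝ) * (2 / Λ) ≤ 1 / 5 := by
    rw [mul_div_assoc', div_le_iff₀ (by linarith)]
    have := le_abs_self M
    linarith
  have c2 : 2 / Λ ≤ 1 / 5 := by
    rw [div_le_iff₀ (by linarith)]; linarith
  have c3 : (Multiset.card Q.roots : ℝ) * (2 / Λ) ≤ m * (2 / Λ) := by
    have : (Multiset.card Q.roots : ℝ) ≤ m := by exact_mod_cast (card_roots' Q).trans hd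
    gcongr
  have c4 : (cnt Q.roots ρ : ℝ) + 1 ≤ m := by
    have := cnt_mono Q.roots hρR
    exact_mod_cast (by omega : cnt Q.roots ρ + 1 ≤ m)
  have c5 : ‖E Q 1 z ^ 2‖ ≤ (1 / 5) ^ 2 := by
    rw [norm_pow]; exact pow_le_pow_left₀ (norm_nonneg _) (b1.trans c1) 2
  have c6 : (m : ℝ) * (2 / Λ) ^ 2 ≤ 1 / 5 * (1 / 5) := by
    rw [pow_two, ← mul_assoc]; exact mul_le_mul c1 c2 hδ.le (by norm_num)
  rw [Lop_div Q _ z hQz]
  have e : (E Q 2 z - 2 * z * E Q 1 z + 2 * m).re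
      = (E Q 2 z - E Q 1 z ^ 2).re + (E Q 1 z ^ 2).re - 2 * (z * E Q 1 z).re + 2 * m := by
    simp
    ring
  have d1 := (abs_le.mp ((Complex.abs_re_le_norm _).trans b2)).1
  have d2 := (abs_le.mp ((Complex.abs_re_le_norm _).trans c5)).1
  have d3 := (Complex.re_le_norm _).trans b3
  rw [e]
  linarith

end Pool.Agent.P.MP_6deb90_an
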