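import Mathlib
import Pool.Agent.P.MP_6deb90_an.G.Red

/-!
The reduction step when the top index is large, and the zeros of a lacunary Hermite expansion in a
disc whose radius depends only on the initial part and the number of further terms.
-/

namespace Pool.Agent.P.MP_6deb90_an
open Polynomial Filter

lemma level_gap (S : Finset ℕ) (k : ℕ) (hS : S.card = k) (μ : ℝ) (hμ : 0 < μ) :
    ∃ t : ℝ, μ / 2 ≤ t ∧ t ≤ 3 * μ / 4 ∧
      ∀ A ∈ lev S, 1 / (8 * ((k : ℝ) + 1)) * t ^ 2 ≤ |t ^ 2 - A| := by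
  set h : ℝ := 1 / (8 * ((k : ℝ) + 1)) with hh
  have h0 : 0 < h := by positivity
  have h1 : h * (k + 1) = 1 / 8 := by rw [hh]; field_simp
  have m2 : 0 < μ ^ 2 := by positivity
  obtain ⟨j, hj, hgap⟩ := exists_gap (lev S : Multiset ℝ) k (by simp [length_lev, hS])
    (fun j : ℕ => (1 / 4 + 2 * h * j) * μ ^ 2) (fun i j hij => by
      have : (i : ℝ) ≤ j := by exact_mod_cast hij
      simp only
      gcongr)
  have hj' : (j : ℝ) ≤ k := by exact_mod_cast hj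
  have j0 : 0 ≤ h * j := by positivity
  have j1 : h * j + h ≤ 1 / 8 := by nlinarith
  have t0 : 0 ≤ (1 / 4 + 2 * h * j + h) * μ ^ 2 := by positivity
  have t2 := Real.sq_sqrt t0
  refine ⟨Real.sqrt ((1 / 4 + 2 * h * j + h) * μ ^ 2), ?_, ?_, fun A hA => ?_⟩
  · exact Real.le_sqrt_of_sq_le (by nlinarith)
  · exact Real.sqrt_le_iff.mpr ⟨by positivity, by nlinarith⟩
  · rw [t2]
    have b : h * ((1 / 4 + 2 * h * j + h) * μ ^ 2) ≤ h * μ ^ 2 := by
      gcongr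
      nlinarith
    rcases hgap A (by simpa using hA) with g | g
    · refine le_trans ?_ (le_abs_self _)
      nlinarith
    · rw [abs_sub_comm]
      refine le_trans ?_ (le_abs_self _)
      push_cast at g
      nlinarith

lemma large (p k : ℕ) (s : ℝ) (hs : 1 ≤ s) : ∃ M R : ℝ, ∀ (G : ℂ[X]) (S : Finset ℕ) (a : ℕ → ℂ)
    (m : ℕ), G.natDegree ≤ p → S.card = k + 1 → (∀ n ∈ S, n ≤ m) → p ≤ m → M ≤ m →
    Ex G S a ≠ 0 → cnt (Ex G S a).roots R ≤ p →
    cnt (Lop (2 * m) (Ex G S a)).roots s ≤ cnt (Ex G S a).roots R := by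
  classical
  obtain ⟨c0, p0, h0⟩ := ops_est (k + 1) (p + 1)
  obtain ⟨c1, p1, h1⟩ := ops_est k (p + 1)
  set κ : ℝ := 1 / (8 * (((k + 1 : ℕ) : ℝ) + 1)) with hκ
  have κ0 : 0 < κ := by positivity
  have κ1 : κ ≤ 1 := by
    rw [hκ, div_le_one (by positivity)]
    have : (0 : ℝ) ≤ ((k + 1 : ℕ) : ℝ) := by positivity
    linarith
  have hf : (1 : ℝ) ≤ (p + 1).factorial := by exact_mod_cast (p + 1).factorial_pos
  obtain ⟨ε, ε0, ε1, ε2, ε3⟩ : ∃ ε : ℝ, 0 < ε ∧ c0 * ε < κ ^ (k + 1) ∧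
      ((p + 1).factorial : ℝ) * ε ≤ 1 / 100 ∧ ε ≤ 1 / 100 := by
    refine ⟨min (κ ^ (k + 1) / (c0 + 1)) (1 / 100 / (p + 1).factorial), by positivity, ?_, ?_, ?_⟩
    · calc _ ≤ c0 * (κ ^ (k + 1) / (c0 + 1)) := by gcongr; exact min_le_left _ _
        _ < κ ^ (k + 1) := by
          rw [mul_div_assoc', div_lt_iff₀ (by positivity)]
          nlinarith [pow_pos κ0 (k + 1)]
    · calc _ ≤ ((p + 1).factorial : ℝ) * (1 / 100 / (p + 1).factorial) := by
            gcongr; exact min_le_right _ _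
        _ = 1 / 100 := by field_simp
    · exact (min_le_right _ _).trans (div_le_self (by norm_num) hf)
  set D : ℝ := ε⁻¹ + 1 with hD
  have D0 : 0 < ε⁻¹ := inv_pos.mpr ε0
  set R : ℝ := s + 2 * D * ((p + 1 : ℕ) : ℝ) with hR
  obtain ⟨μ0, hμ0⟩ := eventually_atTop.mp
    (((Real.tendsto_exp_div_pow_atTop (2 * (p + 1 + 2 * k))).eventually_gt_atTop
      ((k + 1) * (c1 + 5 ^ k))).and (eventually_ge_atTop (2 * R / ε)))
  refine ⟨μ0 ^ 2, R, fun G S a m hG hS hm hp hM hQ hc => ?_⟩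
  have hd := natDegree_Ex hG hp hm a
  have hzero := iter_Lops hG S a (lev S)
  have hpart := fun n => iter_Lops hG S a (lev (S.erase n))
  have hall := iter_Lops hG S a []
  set Q := Ex G S a with hQdef
  set μ : ℝ := Real.sqrt (2 * m) with hμdef
  have hμ2 : μ ^ 2 = 2 * m := Real.sq_sqrt (by positivity)
  have m0 : (0 : ℝ) ≤ m := by positivity
  obtain ⟨g1, g2⟩ := hμ0 μ (Real.le_sqrt_of_sq_le (by linarith))
  rw [div_le_iff₀ ε0] at g2
  obtain ⟨j, hj, hgap⟩ := root_gap Q.roots p (fun j : ℕ => s + 2 * D * j) (fun i j hij => by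
    have : (i : ℝ) ≤ j := by exact_mod_cast hij
    simp only
    gcongr) hc
  set ρ : ℝ := s + 2 * D * j + D with hρ
  have j0 : 0 ≤ D * j := by positivity
  have ρ1 : s + 1 ≤ ρ := by linarith
  have ρ2 : ρ + 1 ≤ R := by
    have : (j : ℝ) ≤ p := by exact_mod_cast hj
    have : D * j ≤ D * p := by gcongr
    rw [hR]; push_cast; linarith
  have μ200 : 200 ≤ μ := by
    by_contra h
    have := Real.sqrt_nonneg (2 * m)
    nlinarith
  have hRμ : R ≤ μ / 100 := by nlinarith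
  set Ann := {z : ℂ | ρ - 1 ≤ ‖z‖ ∧ ‖z‖ ≤ ρ + 1} with hAnn
  have hfar : ∀ z ∈ Ann, ∀ r, eval r Q = 0 → ε⁻¹ ≤ ‖z - r‖ := by
    intro z hz r hr
    have t1 : ‖z‖ - ‖r‖ ≤ ‖z - r‖ := norm_sub_norm_le z r
    have t2 : ‖r‖ - ‖z‖ ≤ ‖z - r‖ := by rw [norm_sub_rev]; exact norm_sub_norm_le r z
    rcases hgap r ((mem_roots hQ).mpr hr) with h | h
    · linarith [hz.1]
    · push_cast at h
      linarith [hz.2]
  have hne : ∀ z ∈ Ann, eval z Q ≠ 0 := fun z hz => ne_of_far ε0 (hfar z hz)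
  have hest : ∀ z ∈ Ann, μ / 2 ≤ ‖E Q 1 z‖ → ∀ i, ‖E Q i z - E Q 1 z ^ i‖
      ≤ i.factorial * ε * ‖E Q 1 z‖ ^ i := by
    intro z hz hK
    refine approx_all Q m hd z ε ε0 (hfar z hz) _ ε le_rfl (by linarith) ε0.le (by linarith) ?_
    have : (μ / 2) ^ 2 ≤ ‖E Q 1 z‖ ^ 2 := pow_le_pow_left₀ (by linarith) hK 2
    have a2 : m * ε ≤ ‖E Q 1 z‖ ^ 2 := by nlinarith
    calc m * ε ^ 2 = ε * (m * ε) := by ring
      _ ≤ _ := by gcongr
  have hlev : ∀ T : Finset ℕ, T ⊆ S → ∀ A ∈ lev T, 0 ≤ A ∧ A ≤ μ ^ 2 := by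
    intro T hT A hA
    obtain ⟨n, h1, rfl⟩ := mem_lev.mp hA
    have : (n : ℝ) ≤ m := by exact_mod_cast hm n (hT h1)
    exact ⟨by positivity, by linarith⟩
  refine (cnt_mono _ (by linarith : s ≤ ρ)).trans
    (le_trans (le_of_eq ?_) (cnt_mono _ (by linarith : ρ ≤ R)))
  by_cases hcase : ∀ z : ℂ, ‖z‖ = ρ → |(E Q 1 z).im| ≤ 3 * μ / 4
  · refine cnt_eq_of_re _ _ (by linarith) fun z hz => ?_
    have hz' : z ∈ Ann := ⟨by linarith, by linarith⟩
    rw [Lop_div Q _ z (hne z hz')]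
    obtain ⟨-, b2, -⟩ := approx Q m hd z ε ε0 (hfar z hz')
    refine re_pos _ _ _ μ m (by linarith) hμ2 (hcase z hz) (b2.trans ?_) (by linarith)
    have : ε ^ 2 ≤ (1 / 100) ^ 2 := pow_le_pow_left₀ ε0.le ε3 2
    nlinarith
  exfalso
  push Not at hcase
  obtain ⟨z0, hz0, hstart⟩ := hcase
  have hz0' : z0 ∈ Ann := ⟨by linarith, by linarith⟩
  obtain ⟨t, t1, t2, t3⟩ := level_gap S (k + 1) hS μ (by linarith)
  have havoid : ∀ z ∈ Ann, |(E Q 1 z).im| ≠ t := by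
    intro z hz him
    set w := E Q 1 z
    have hKt : t ≤ ‖w‖ := by rw [← him]; exact Complex.abs_im_le_norm w
    have hK : μ / 2 ≤ ‖w‖ := t1.trans hKt
    have a1 : ‖z‖ ≤ ε * ‖w‖ := by nlinarith [hz.2]
    have a2 : 1 ≤ ε * ‖w‖ := by nlinarith
    have a3 : μ ^ 2 ≤ 4 * ‖w‖ ^ 2 := by nlinarith
    obtain ⟨-, b⟩ := h0 Q z w ‖w‖ ε (lev S) (by rw [length_lev, hS]) (hne z hz) (norm_nonneg _)
      ε0.le (by linarith) le_rfl a1 (by nlinarith)
      (fun A hA => by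
        obtain ⟨l1, l2⟩ := hlev S subset_rfl A hA
        rw [abs_of_nonneg l1]; linarith) (hest z hz hK)
    rw [hzero, Finset.sum_eq_zero (fun n hn => by rw [prod_lev_zero hn]; simp), eval_zero,
      zero_div, zero_sub, norm_neg, norm_mul, norm_pow] at b
    have l := prod_lower (fun A : ℝ => w ^ 2 + A) (κ * ‖w‖ ^ 2) (by positivity) (lev S)
      fun A hA => sq_add_lower' w A κ (hlev S subset_rfl A hA).1 κ0.le κ1 (by
        rw [← sq_abs w.im, him]; exact t3 A hA)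
    rw [length_lev, hS] at l
    have wpos : 0 < ‖w‖ := by linarith
    have l2 : κ ^ (k + 1) * ‖w‖ ^ (p + 1 + 2 * (k + 1))
        ≤ c0 * ε * ‖w‖ ^ (p + 1 + 2 * (k + 1)) := by
      refine le_trans ?_ b
      calc _ = ‖w‖ ^ (p + 1) * (κ * ‖w‖ ^ 2) ^ (k + 1) := by ring
        _ ≤ _ := by gcongr
    exact absurd (le_of_mul_le_mul_right l2 (by positivity)) (not_le.mpr ε1)
  obtain ⟨σ, hσ, hσ0⟩ : ∃ σ : ℝ, (σ = 1 ∨ σ = -1) ∧ 3 * μ / 4 ≤ σ * (E Q 1 z0).im := by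
    rcases le_total 0 (E Q 1 z0).im with h | h
    · exact ⟨1, Or.inl rfl, by rw [abs_of_nonneg h] at hstart; linarith⟩
    · exact ⟨-1, Or.inr rfl, by rw [abs_of_nonpos h] at hstart; linarith⟩
  have hcont : ContinuousOn (fun z => σ * (E Q 1 z).im) Ann := by
    refine continuousOn_const.mul (Complex.continuous_im.comp_continuousOn ?_)
    unfold E
    exact ContinuousOn.div (Polynomial.continuous _).continuousOn
      (Polynomial.continuous _).continuousOn hne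
  have hbig : ∀ z ∈ Ann, μ / 2 ≤ σ * (E Q 1 z).im := by
    intro z hz
    by_contra hlt
    have hlt' : σ * (E Q 1 z).im < μ / 2 := not_le.mp hlt
    obtain ⟨z2, hz2, h2⟩ := (isPreconnected_ann (ρ - 1) (ρ + 1) (by linarith)).intermediate_value
      hz hz0' hcont (show t ∈ Set.Icc _ _ from ⟨by linarith, by linarith⟩)
    apply havoid z2 hz2
    simp only at h2
    rcases hσ with rfl | rfl
    · rw [abs_of_nonneg (by linarith)]; linarith
    · rw [abs_of_nonpos (by linarith)]; linarith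
  set c : ℂ := -(σ : ℂ) * Complex.I with hcdef
  have hcn : ‖c‖ = 1 := by
    rcases hσ with rfl | rfl <;> simp [hcdef]
  have hcy : ∀ y : ℝ, y ∈ Set.Icc (-1 : ℝ) 1 → c * y + ρ ∈ Ann := by
    intro y hy
    have b1 : ‖c * y‖ ≤ 1 := by
      rw [norm_mul, hcn, one_mul, Complex.norm_real, Real.norm_eq_abs]
      exact abs_le.mpr hy
    have b2 : ‖(ρ : ℂ)‖ = ρ := by
      rw [Complex.norm_real, Real.norm_eq_abs, abs_of_nonneg (by linarith)]
    have b3 := norm_add_le (c * y) ρ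
    have b4 := norm_sub_le (c * y + ρ) (c * y)
    rw [add_sub_cancel_left] at b4
    exact ⟨by linarith, by linarith⟩
  have hE : ∀ u : ℂ, E (Q.comp (X + C (ρ : ℂ))) 1 u = E Q 1 (u + ρ) := by
    intro u
    simp [E, derivative_comp, eval_comp]
  have hgrow := growth (Q.comp (X + C (ρ : ℂ))) c μ
    (fun y hy => by simpa [eval_comp] using hne _ (hcy y hy)) (by
      intro y hy
      have e : ∀ w : ℂ, (c * w).re = σ * w.im := by
        intro w; simp [hcdef]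
      rw [e, hE]
      exact hbig _ (hcy y hy))
  simp only [eval_comp, eval_add, eval_X, eval_C] at hgrow
  have hz1 : c + ρ ∈ Ann := by simpa using hcy 1 (by simp)
  have hz2 : -c + ρ ∈ Ann := by simpa using hcy (-1) (by simp)
  have hconj : (starRingEnd ℂ) (-c + ρ) = c + ρ := by simp [hcdef]
  set z1 := c + ρ
  set z2 := -c + ρ
  have hlow : ‖eval z1 Q‖ ≤ ‖eval z1 (derivative^[p + 1] Q)‖ := by
    have a1 : μ / 2 ≤ ‖E Q 1 z1‖ := by
      refine (hbig z1 hz1).trans (le_trans ?_ (Complex.abs_im_le_norm _))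
      rcases hσ with rfl | rfl
      · rw [one_mul]; exact le_abs_self _
      · rw [neg_one_mul]; exact neg_le_abs _
    have a2 := hest z1 hz1 a1 (p + 1)
    have a3 : ‖E Q 1 z1 ^ (p + 1)‖ - ‖E Q (p + 1) z1‖
        ≤ ‖E Q (p + 1) z1 - E Q 1 z1 ^ (p + 1)‖ := by
      rw [norm_sub_rev]; exact norm_sub_norm_le _ _
    rw [norm_pow] at a3
    have a4 : ‖E Q 1 z1‖ ≤ ‖E Q 1 z1‖ ^ (p + 1) := le_self_pow₀ (by linarith) (by omega)
    have a5 : ((p + 1).factorial : ℝ) * ε * ‖E Q 1 z1‖ ^ (p + 1)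
        ≤ 1 / 100 * ‖E Q 1 z1‖ ^ (p + 1) := by gcongr
    rw [E_mul Q _ z1 (hne z1 hz1), norm_mul]
    exact le_mul_of_one_le_left (norm_nonneg _) (by linarith)
  have hpos : 0 < ‖eval z2 Q‖ := norm_pos_iff.mpr (hne _ hz2)
  have hup : ∀ n ∈ S, ‖eval z1 (C (a n * 1) * derivative^[p + 1] (Hp n))‖
      ≤ (c1 + 5 ^ k) * (μ ^ 2) ^ (p + 1 + 2 * k) * ‖eval z2 Q‖ := by
    intro n hn
    obtain ⟨b1, -, -⟩ := approx Q m hd z2 ε ε0 (hfar z2 hz2)
    have b2 : ‖E Q 1 z2‖ ≤ μ ^ 2 := by nlinarith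
    have b3 : 1 ≤ μ ^ 2 := by nlinarith
    have b4 : μ ^ 2 ≤ (μ ^ 2) ^ 2 := le_self_pow₀ b3 (by norm_num)
    obtain ⟨d1, d2⟩ := h1 Q z2 (E Q 1 z2) (μ ^ 2) 1 (lev (S.erase n))
      (by rw [length_lev, Finset.card_erase_of_mem hn, hS]; rfl) (hne z2 hz2) (by positivity)
      zero_le_one le_rfl b2 (by nlinarith [hz2.2]) (by linarith)
      (fun A hA => by
        obtain ⟨l1, l2⟩ := hlev _ (Finset.erase_subset n S) A hA
        rw [abs_of_nonneg l1]; linarith)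
      (approx_all Q m hd z2 ε ε0 (hfar z2 hz2) _ 1 b2 (by linarith) zero_le_one le_rfl (by
        have : ε ^ 2 ≤ 1 := pow_le_one₀ ε0.le (by linarith)
        nlinarith))
    have d3 := norm_add_le_of_le d2 d1
    rw [sub_add_cancel, hpart n, Finset.sum_eq_single n
      (fun b hb hbn => by rw [prod_lev_zero (Finset.mem_erase.mpr ⟨hbn, hb⟩)]; simp)
      (fun h => absurd hn h), norm_div, div_le_iff₀ hpos, eval_mul, eval_C, norm_mul,
      norm_mul] at d3
    have d4 := prod_lev_one (Finset.notMem_erase n S)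
    have d5 : ‖eval z1 (derivative^[p + 1] (Hp n))‖ = ‖eval z2 (derivative^[p + 1] (Hp n))‖ := by
      rw [← hconj]
      exact norm_eval_conj _ (by rw [← iterate_derivative_map, map_conj_Hp]) z2
    rw [eval_mul, eval_C, norm_mul, norm_mul, d5, norm_one]
    refine le_trans (by gcongr) (d3.trans (le_of_eq ?_))
    ring
  have htot : ‖eval z1 (derivative^[p + 1] Q)‖
      ≤ (k + 1) * ((c1 + 5 ^ k) * (μ ^ 2) ^ (p + 1 + 2 * k) * ‖eval z2 Q‖) := by
    have e : Lops [] Q = Q := rfl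
    rw [e] at hall
    rw [hall, eval_finsetSum]
    refine (norm_sum_le_of_le _ hup).trans (le_of_eq ?_)
    rw [Finset.sum_const, hS, nsmul_eq_mul]
    push_cast
    ring
  rw [lt_div_iff₀ (by positivity), pow_mul] at g1
  have := mul_lt_mul_of_pos_right g1 hpos
  nlinarith

end Pool.Agent.P.MP_6deb90_an
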