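import Mathlib
import Pool.Agent.P.MP_6deb90_an.G.Large

/-!
Zeros of a lacunary Hermite expansion in a disc whose radius depends only on the initial part and
the number of further terms.
-/

namespace Pool.Agent.P.MP_6deb90_an
open Polynomial

lemma coeff_Hp_self (n : ℕ) : (Hp n).coeff n = 2 ^ n := by
  induction n with
  | zero => simp [Hp]
  | succ n ih =>
    have h : (Hp n).coeff (n + 1 + 1) = 0 :=
      coeff_eq_zero_of_natDegree_lt ((natDegree_Hp n).trans_lt (by omega))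
    rw [Hp_succ, coeff_sub, mul_assoc, coeff_ofNat_mul, coeff_X_mul, ih, coeff_derivative, h]
    ring

/-- The initial part of the expansion. -/
noncomputable def Ini (p : ℕ) (a : ℕ → ℂ) : ℂ[X] := ∑ ν ∈ Finset.range (p + 1), C (a ν) * Hp ν

lemma natDegree_Ini (p : ℕ) (a : ℕ → ℂ) : (Ini p a).natDegree ≤ p :=
  natDegree_sum_le_of_forall_le _ _ fun n hn => (natDegree_C_mul_le _ _).trans
    ((natDegree_Hp n).trans (Nat.lt_succ_iff.mp (Finset.mem_range.mp hn)))

lemma base (p : ℕ) (T : ℝ) : ∃ R : ℝ, 1 ≤ R ∧ ∀ a : ℕ → ℂ, a p ≠ 0 →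
    (∀ ν < p, ‖a ν‖ ≤ T * ‖a p‖) → p ≤ cnt (Ini p a).roots R := by
  set B : ℝ := ∑ ν ∈ Finset.range (p + 1), ∑ i ∈ Finset.range (p + 1), ‖(Hp ν).coeff i‖ with hB
  have B0 : 0 ≤ B := by positivity
  refine ⟨(|T| + 1) * B + 1, by have := abs_nonneg T; nlinarith, fun a ha hT => ?_⟩
  have a0 : 0 < ‖a p‖ := norm_pos_iff.mpr ha
  have htop : (Ini p a).coeff p = a p * 2 ^ p := by
    rw [Ini, finsetSum_coeff, Finset.sum_range_succ, coeff_C_mul, coeff_Hp_self,
      Finset.sum_eq_zero, zero_add]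
    intro ν hν
    rw [coeff_C_mul, coeff_eq_zero_of_natDegree_lt
      ((natDegree_Hp ν).trans_lt (Finset.mem_range.mp hν)), mul_zero]
  have hne : (Ini p a).coeff p ≠ 0 := by rw [htop]; exact mul_ne_zero ha (pow_ne_zero _ two_ne_zero)
  have hdeg : (Ini p a).natDegree = p := natDegree_eq_of_le_of_coeff_ne_zero (natDegree_Ini p a) hne
  have hQ : Ini p a ≠ 0 := fun h => hne (by rw [h, coeff_zero])
  have hco : ∀ i < p, ‖(Ini p a).coeff i‖ ≤ (|T| + 1) * ‖a p‖ * B := by
    intro i hi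
    rw [Ini, finsetSum_coeff, hB, Finset.mul_sum]
    refine norm_sum_le_of_le _ fun ν hν => ?_
    rw [coeff_C_mul, norm_mul]
    refine mul_le_mul ?_ (Finset.single_le_sum (f := fun i => ‖(Hp ν).coeff i‖)
      (fun _ _ => norm_nonneg _) (Finset.mem_range.mpr (by omega))) (norm_nonneg _)
      (by positivity)
    have h1 := le_abs_self T
    have h2 := abs_nonneg T
    rcases Nat.lt_succ_iff_lt_or_eq.mp (Finset.mem_range.mp hν) with h | rfl
    · have := hT ν h
      nlinarith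
    · nlinarith
  have hroot : ∀ r ∈ (Ini p a).roots, ‖r‖ ≤ (|T| + 1) * B + 1 := by
    intro r hr
    have h1 := (IsRoot.norm_lt_cauchyBound hQ (isRoot_of_mem_roots hr)).le
    have h2 : Finset.sup (Finset.range (Ini p a).natDegree) (‖(Ini p a).coeff ·‖₊)
        ≤ ⟨(|T| + 1) * ‖a p‖ * B, by positivity⟩ :=
      Finset.sup_le fun i hi => hco i (hdeg ▸ Finset.mem_range.mp hi)
    have h3 : ‖a p‖ ≤ ‖(Ini p a).leadingCoeff‖ := by
      rw [leadingCoeff, hdeg, htop, norm_mul, norm_pow]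
      exact le_mul_of_one_le_right a0.le (one_le_pow₀ (by simp))
    have h4 : ‖r‖ ≤ ((Finset.sup (Finset.range (Ini p a).natDegree) (‖(Ini p a).coeff ·‖₊) :
        NNReal) : ℝ) / ‖(Ini p a).leadingCoeff‖ + 1 := by
      exact_mod_cast h1
    have h5 : ((Finset.sup (Finset.range (Ini p a).natDegree) (‖(Ini p a).coeff ·‖₊) :
        NNReal) : ℝ) ≤ (|T| + 1) * ‖a p‖ * B := h2
    refine h4.trans ?_
    gcongr
    rw [div_le_iff₀ (a0.trans_le h3)]
    calc _ ≤ (|T| + 1) * ‖a p‖ * B := h5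
      _ ≤ (|T| + 1) * ‖(Ini p a).leadingCoeff‖ * B := by gcongr
      _ = _ := by ring
  rw [cnt, Multiset.filter_eq_self.mpr hroot, IsAlgClosed.card_roots_eq_natDegree, hdeg]

theorem zeros_in_disc (p k : ℕ) : ∀ T : ℝ, ∃ R : ℝ, 1 ≤ R ∧ ∀ (S : Finset ℕ) (a : ℕ → ℂ),
    S.card ≤ k → (∀ n ∈ S, p < n) → a p ≠ 0 → (∀ ν < p, ‖a ν‖ ≤ T * ‖a p‖) →
    p ≤ cnt (Ex (Ini p a) S a).roots R := by
  induction k with
  | zero =>
    intro T
    obtain ⟨R, h1, h2⟩ := base p T
    refine ⟨R, h1, fun S a hS _ ha hT => ?_⟩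
    obtain rfl := Finset.card_eq_zero.mp (Nat.le_zero.mp hS)
    simpa [Ex] using h2 a ha hT
  | succ k ih =>
    intro T
    obtain ⟨R0, r0, h0⟩ := ih T
    obtain ⟨s, hs, h1⟩ := ih ((p + 1) * |T|)
    obtain ⟨M, R1, h2⟩ := large p k s hs
    obtain ⟨R2, h3⟩ := small p s M hs
    refine ⟨max R0 (max R1 R2), le_max_of_le_left r0, fun S a hS hp ha hT => ?_⟩
    rcases Nat.lt_succ_iff_lt_or_eq.mp (Nat.lt_succ_of_le hS) with h | h
    · exact (h0 S a (by omega) hp ha hT).trans (cnt_mono _ (le_max_left _ _))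
    have hne : S.Nonempty := Finset.card_pos.mp (by omega)
    set m := S.max' hne
    have hm : m ∈ S := S.max'_mem hne
    have hle : ∀ n ∈ S, n ≤ m := fun n hn => S.le_max' n hn
    have hpm := hp m hm
    have hpm' : (p : ℝ) + 1 ≤ m := by exact_mod_cast hpm
    have p0 : (0 : ℝ) ≤ p := by positivity
    have e : Lop (2 * m) (Ex (Ini p a) S a)
        = Ex (Ini p fun n => a n * (2 * m - 2 * n)) (S.erase m) fun n => a n * (2 * m - 2 * n) := by
      rw [Ex, Lop_add, Ini, Lop_sum, Lop_sum, Ex, Ini, ← Finset.add_sum_erase S _ hm]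
      simp
    have nrm : ∀ n : ℕ, n ≤ m → ‖(2 * m - 2 * n : ℂ)‖ = 2 * m - 2 * n := by
      intro n hn
      have : (n : ℝ) ≤ m := by exact_mod_cast hn
      have e : (2 * m - 2 * n : ℂ) = ((2 * m - 2 * n : ℝ) : ℂ) := by push_cast; ring
      rw [e, Complex.norm_real, Real.norm_eq_abs, abs_of_nonneg (by linarith)]
    have key := h1 (S.erase m) (fun n => a n * (2 * m - 2 * n))
      (by rw [Finset.card_erase_of_mem hm]; omega)
      (fun n hn => hp n (Finset.mem_of_mem_erase hn))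
      (mul_ne_zero ha (by rw [← norm_pos_iff, nrm p hpm.le]; linarith))
      (fun ν hν => by
        rw [norm_mul, norm_mul, nrm p hpm.le, nrm ν (by omega)]
        have b1 : ‖a ν‖ ≤ |T| * ‖a p‖ :=
          (hT ν hν).trans (mul_le_mul_of_nonneg_right (le_abs_self T) (norm_nonneg _))
        have ν0 : (0 : ℝ) ≤ ν := by positivity
        have ν1 : (ν : ℝ) ≤ m := by exact_mod_cast (by omega : ν ≤ m)
        have b2 : (2 * m - 2 * ν : ℝ) ≤ (p + 1) * (2 * m - 2 * p) := by nlinarith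
        calc _ ≤ |T| * ‖a p‖ * ((p + 1) * (2 * m - 2 * p)) :=
              mul_le_mul b1 b2 (by linarith) (by positivity)
          _ = _ := by ring)
    rw [← e] at key
    by_contra hcon
    have hlt := not_le.mp hcon
    have hQ : Ex (Ini p a) S a ≠ 0 := by
      intro h
      rw [h, Lop_zero] at key
      rw [h] at hlt
      simp [cnt] at key hlt
      omega
    have c1 := cnt_mono (Ex (Ini p a) S a).roots
      ((le_max_left R1 R2).trans (le_max_right R0 _))
    have c2 := cnt_mono (Ex (Ini p a) S a).roots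
      ((le_max_right R1 R2).trans (le_max_right R0 _))
    rcases le_total M m with hM | hM
    · have := h2 _ S a m (natDegree_Ini p a) h hle hpm.le hM hQ (by omega)
      omega
    · have := h3 _ m hQ (natDegree_Ex (natDegree_Ini p a) hpm.le hle a) hpm.le hM (by omega)
      omega

end Pool.Agent.P.MP_6deb90_an
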